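import Pool.Agent.Y175.PW.Law

set_option autoImplicit false

/-!
# The distances between the numbers `k` with `3 k ^ 2 + 3 k + 1` almost prime

Definitions used from `Pool.Agent.Y175.PW`, for the function `v = value` (`v k = 3 k ^ 2 + 3 k + 1`):
`Good v 2 r X k`: `v k` has at most `2 r` prime factors (with multiplicity), all larger than
`X ^ (1 / r)`; `V v r X`: the product over the primes `p ≤ X ^ (1 / r)` of `1 - omega v p / p`, where
`omega v p` is the number of the residue classes `k` modulo `p` with `p ∣ v k`;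
`Far v 2 r k T X Y`: the number of the good integers in `(X, X + Y]` whose distance to the `k`-th good
predecessor is larger than `T`.
-/

namespace Pool.Agent.Results.MP_22d6bb_nt.GammaLawForGaps

open Finset Filter
open Pool.Agent.Y175.PW

/-- The values of the polynomial. -/
def value (m : ℕ) : ℤ := 3 * (m : ℤ) ^ 2 + 3 * m + 1

/-- **The distances between the almost prime values follow the Gamma laws of a Poisson process**, in all
intervals of length `X ^ θ`. -/
theorem result (θ : ℝ) (hθ : 0 < θ) (k₀ : ℕ) (x₀ ε : ℝ) (hε : 0 < ε) :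
    ∃ r₀ : ℕ, ∀ r : ℕ, r₀ ≤ r → ∀ᶠ X : ℕ in atTop, ∀ Y : ℕ, (X : ℝ) ^ θ ≤ Y → Y ≤ X →
      ∀ k T : ℕ, (k ≤ k₀ ∨ T * V value r X ≤ x₀) →
        |(Far value 2 r k T X Y : ℝ) -
          Y * V value r X * ∑ j ∈ Finset.range k, poisson (T * V value r X) j| ≤
          ε * (Y * V value r X) :=
  gap_law (vals_quad 3 3 1 (by norm_num)
    (fun p hp h => by
      have : p ∣ 1 := by exact_mod_cast h.2.2
      exact hp.one_lt.ne' (Nat.dvd_one.1 this))
    (fun h => absurd h.2 (by decide))
    (by
      rintro ⟨s, hs⟩
      nlinarith [mul_self_nonneg s]) value (fun m => by unfold value; ring)) θ hθ k₀ x₀ ε hε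

end Pool.Agent.Results.MP_22d6bb_nt.GammaLawForGaps
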