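import Pool.Agent.Y175.PW.Quad

set_option autoImplicit false

/-!
# Regular neighbourhoods of the numbers `k` with `(k + 1) ^ 3 - k ^ 3` prime

Let `R r` be the set of the `k` for which all prime factors of `3 k ^ 2 + 3 k + 1` are larger than
`k ^ (1 / r)`. It contains the `k` for which this is a cuban prime. For an ARBITRARY subset `A` of
`R r`, in every short interval all but a small proportion of the expected number of elements of `A` are
regular points of `A`: around them `A` has the expected order of magnitude in all windows, and a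
constant density at all but boundedly many dyadic scales.
-/

namespace Pool.Agent.Results.MP_22d6bb_nt.RegularNeighbourhoods

open Finset Filter
open Pool.Agent.TH977.PW (N Irregular)

/-- All prime factors of `3 k ^ 2 + 3 k + 1` are larger than `k ^ (1 / r)`. -/
def R (r : ℕ) : Set ℕ :=
  {k | ∀ p : ℕ, p.Prime → p ∣ 3 * k ^ 2 + 3 * k + 1 → (k : ℝ) ^ (1 / (r : ℝ)) < (p : ℝ)}

/-- **Regular neighbourhoods of the numbers `k` for which `(k + 1) ^ 3 - k ^ 3` is a prime.** -/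
theorem result (θ : ℝ) (hθ : 0 < θ) (hθ1 : θ ≤ 1) :
    ∃ r₀ : ℕ, 2 ≤ r₀ ∧ ∀ r : ℕ, r₀ ≤ r →
      (∀ᶠ k : ℕ in atTop, (3 * k ^ 2 + 3 * k + 1).Prime → k ∈ R r) ∧
      (∃ κ : ℝ, 0 < κ ∧ ∀ᶠ X : ℕ in atTop, ∀ Y : ℕ, (X : ℝ) ^ θ ≤ Y → Y ≤ X →
          κ * Y / Real.log X ≤
            N {k | k ∈ R r ∧ (3 * k ^ 2 + 3 * k + 1).primeFactorsList.length ≤ r} X (X + Y)) ∧
      ∀ ε : ℝ, 0 < ε → ∃ c : ℝ, 0 < c ∧ ∀ δ : ℝ, 0 < δ → ∃ B : ℕ,
        ∀ᶠ X : ℕ in atTop, ∀ Y : ℕ, (X : ℝ) ^ θ ≤ Y → 2 * Y ≤ X → ∀ A : Set ℕ, A ⊆ R r →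
          (N (Irregular A 1 c δ B X Y) X (X + Y) : ℝ) ≤ ε * Y / Real.log X := by
  have hval : ∀ m : ℕ, (3 : ℤ) * (m : ℤ) ^ 2 + 3 * m + 1 = ((3 * m ^ 2 + 3 * m + 1 : ℕ) : ℤ) :=
    fun m => by push_cast; ring
  obtain ⟨r0, hr0, h0⟩ := Pool.Agent.Y175.PW.final_quad 3 3 1 (by norm_num)
    (fun p hp h => by
      have : p ∣ 1 := by exact_mod_cast h.2.2
      exact hp.one_lt.ne' (Nat.dvd_one.1 this))
    (by
      rintro ⟨s, hs⟩
      nlinarith [mul_self_nonneg s])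
    (fun h => absurd h.2 (by decide))
    R (fun r => {k | k ∈ R r ∧ (3 * k ^ 2 + 3 * k + 1).primeFactorsList.length ≤ r})
    (fun r m _ hm p hp hd => hm p hp (by rw [hval] at hd; exact_mod_cast hd))
    (fun r m _ h1 h2 => ⟨fun p hp hd => h1 p hp (by rw [hval]; exact_mod_cast hd), by
      rw [hval, Int.natAbs_natCast] at h2
      exact h2⟩) θ hθ hθ1
  refine ⟨r0, hr0, fun r hr => ⟨?_, (h0 r hr).1, (h0 r hr).2⟩⟩
  filter_upwards [eventually_ge_atTop 6] with k hk hq p hp hd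
  have hl := Pool.Agent.Y175.PW.quad_large 3 3 1 (by norm_num) k (by simpa using hk)
  rw [hval, Int.natAbs_natCast] at hl
  refine Pool.Agent.Y175.PW.rough_of_prime r k ((3 * k ^ 2 + 3 * k + 1 : ℕ) : ℤ) (hr0.trans hr)
    (by omega) ?_ ?_ p hp (by exact_mod_cast hd)
  · rw [Int.natAbs_natCast]; exact hq
  · rw [Int.natAbs_natCast]; exact hl

end Pool.Agent.Results.MP_22d6bb_nt.RegularNeighbourhoods
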